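import Pool.Agent.Q80.ND.Fail

/-!
There is no bound `f(3, 2)`: in projective four-space there are integral curves of arbitrarily
large degree that lie on no quadric but all of whose hyperplane sections lie on a quadric.

The curves lie on the projected Veronese surface, the image of the plane under the conics
`x², xy, y² + xz, yz, z²`.  The products of these conics span all quartics, so the surface lies on
no quadric, but for a linear form `L` with pullback `q` the quartic `xz · q` is the pullback of a
quadric `Q`, and `Q` vanishes on the section of the surface by `L` and is not a multiple of `L`.
-/

namespace Pool.Agent.Results.MP_63e4a9_ag.CurvesFailingND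

open Pool.Agent.Q80.ND

/-- Over every algebraically closed field of characteristic zero the assertion of the question
is false: it is not true that for all `e ≥ 3` and `ℓ ≥ 1` there is a number `f` such that every
variety of codimension `e` and dimension `n ≥ 1` lying on no hypersurface of degree `ℓ` and of
degree larger than `f` satisfies `ND(ℓ)`. In fact it fails for `e = 3`, `ℓ = 2` and `n = 1`. -/
theorem result : ∀ (k : Type) [Field k] [IsAlgClosed k] [CharZero k],
    ¬ (∃ f : ℕ, ∀ (D : ℕ) (I : Ideal (MvPolynomial (Fin (4 + 1)) k)), IsVariety I →
      HasDimDegree I 1 D → NoHypersurface I 2 → f < D → ND I 3 2) := by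
  intro k _ _ _
  rintro ⟨f, hf⟩
  have : Infinite k := Infinite.of_injective (fun n : ℕ => (n : k)) Nat.cast_injective
  exact not_ND (k := k) (f + 5) (hf (2 * (f + 5)) (PC k (f + 5)) (isVariety _ (by omega))
    (hasDimDegree _ (by omega)) (noHypersurface _ (by omega)) (by omega))

end Pool.Agent.Results.MP_63e4a9_ag.CurvesFailingND
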